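import Pool.Agent.P8H70.TU.Stm2
import Pool.Agent.P8H78.TU.Alg
import Pool.Agent.P8H21.TR.Pair

/-!
# Soft threshold of a trigonometric polynomial (THR)
-/

set_option autoImplicit false
set_option linter.all false

open Complex MeasureTheory Polynomial Finset ComplexConjugate

namespace Pool.Agent.P8H7.TU

open Pool.Agent.P8H70.TR (tp phi trunc Lp Ip)
open Pool.Agent.P8H70.TU

/-- the `j`-th Fourier coefficient -/
noncomputable def cf (u : ℝ → ℂ) (j : ℕ) : ℂ :=
  ((2 * Real.pi)⁻¹ : ℝ) * ∫ t in (0 : ℝ)..(2 * Real.pi), u t * cexp ((-(j * t : ℝ) : ℂ) * I)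

lemma conj_e (j : ℕ) (t : ℝ) : conj (cexp (((j * t : ℝ) : ℂ) * I)) = cexp ((-(j * t : ℝ) : ℂ) * I) := by
  rw [← Complex.exp_conj, map_mul, Complex.conj_ofReal, Complex.conj_I]
  congr 1
  ring

lemma tp_cont (n : ℕ) (a : ℕ → ℂ) : Continuous (tp n a) := by
  unfold tp
  fun_prop

lemma int_conj (n : ℕ) (c : ℕ → ℂ) (u : ℝ → ℂ) (hu : Continuous u) :
    ∫ t in (0 : ℝ)..(2 * Real.pi), u t * conj (tp n c t) =
      2 * Real.pi * ∑ j ∈ range (n + 1), cf u j * conj (c j) := by
  have h1 : ∀ t : ℝ, u t * conj (tp n c t) =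
      ∑ j ∈ range (n + 1), conj (c j) * (u t * cexp ((-(j * t : ℝ) : ℂ) * I)) := by
    intro t
    unfold tp
    rw [map_sum, Finset.mul_sum]
    refine Finset.sum_congr rfl fun j _ => ?_
    rw [map_mul, conj_e]
    ring
  have hc : ∀ j : ℕ, Continuous (fun t : ℝ => conj (c j) * (u t * cexp ((-(j * t : ℝ) : ℂ) * I))) := by
    intro j
    fun_prop
  simp_rw [h1]
  rw [intervalIntegral.integral_finsetSum (fun j _ => (hc j).intervalIntegrable _ _), Finset.mul_sum]
  refine Finset.sum_congr rfl fun j _ => ?_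
  rw [intervalIntegral.integral_const_mul]
  unfold cf
  have hpi : (2 * (Real.pi : ℂ)) ≠ 0 := by
    have := Real.pi_ne_zero
    simp [this]
  rw [Complex.ofReal_inv, Complex.ofReal_mul, Complex.ofReal_ofNat]
  generalize (∫ (t : ℝ) in (0 : ℝ)..(2 * Real.pi), u t * cexp ((-(j * t : ℝ) : ℂ) * I)) = J
  field_simp

lemma cf_tp (n : ℕ) (a : ℕ → ℂ) (j : ℕ) (hj : j ∈ range (n + 1)) : cf (tp n a) j = a j := by
  have h1 := int_conj n (fun l => if l = j then 1 else 0) (tp n a) (tp_cont n a)
  have h2 := Pool.Agent.P8H21.TR.Pair.parseval n a (fun l => if l = j then 1 else 0)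
  rw [h1] at h2
  have hpi : (2 * (Real.pi : ℂ)) ≠ 0 := by
    have := Real.pi_ne_zero
    simp [this]
  have h3 := mul_left_cancel₀ hpi h2
  have h4 : ∀ x : ℕ → ℂ, ∑ l ∈ range (n + 1), x l * conj (if l = j then (1 : ℂ) else 0) = x j := by
    intro x
    rw [Finset.sum_eq_single j]
    · simp
    · intro l _ hl
      simp [hl]
    · intro h
      exact absurd hj h
  rw [h4 (fun l => cf (tp n a) l), h4 a] at h3
  exact h3

lemma bessel (n : ℕ) (u : ℝ → ℂ) (hu : Continuous u) :
    ∑ j ∈ range (n + 1), ‖cf u j‖ ^ 2 ≤ (2 * Real.pi)⁻¹ * ∫ t in (0 : ℝ)..(2 * Real.pi), ‖u t‖ ^ 2 := by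
  have hpi : 0 < 2 * Real.pi := by positivity
  set c : ℕ → ℂ := cf u with hc
  set A : ℝ := ∑ j ∈ range (n + 1), ‖c j‖ ^ 2 with hA
  have hT := tp_cont n c
  have hsum : ∑ j ∈ range (n + 1), c j * conj (c j) = ((A : ℝ) : ℂ) := by
    rw [hA, Complex.ofReal_sum]
    refine Finset.sum_congr rfl fun j _ => ?_
    rw [Complex.mul_conj, Complex.normSq_eq_norm_sq]
  have h1 : ∫ t in (0 : ℝ)..(2 * Real.pi), u t * conj (tp n c t) = ((2 * Real.pi * A : ℝ) : ℂ) := by
    rw [int_conj n c u hu, hsum]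
    push_cast
    ring
  have h2 : ∫ t in (0 : ℝ)..(2 * Real.pi), tp n c t * conj (tp n c t) = ((2 * Real.pi * A : ℝ) : ℂ) := by
    rw [Pool.Agent.P8H21.TR.Pair.parseval, hsum]
    push_cast
    ring
  have hpt : ∀ t : ℝ, ‖u t - tp n c t‖ ^ 2 = ‖u t‖ ^ 2 - 2 * (u t * conj (tp n c t)).re +
      (tp n c t * conj (tp n c t)).re := by
    intro t
    have e1 : (tp n c t * conj (tp n c t)).re = ‖tp n c t‖ ^ 2 := by
      rw [Complex.mul_conj, Complex.normSq_eq_norm_sq, Complex.ofReal_re]
    rw [e1, ← Complex.normSq_eq_norm_sq, ← Complex.normSq_eq_norm_sq, ← Complex.normSq_eq_norm_sq,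
      Complex.normSq_sub]
    ring
  have hre1 : ∫ t in (0 : ℝ)..(2 * Real.pi), (u t * conj (tp n c t)).re = 2 * Real.pi * A := by
    have hcont : Continuous (fun t => u t * conj (tp n c t)) := by fun_prop
    have h3 := congrArg Complex.re h1
    rw [Complex.ofReal_re] at h3
    rw [← h3]
    exact Complex.reCLM.intervalIntegral_comp_comm (hcont.intervalIntegrable _ _)
  have hre2 : ∫ t in (0 : ℝ)..(2 * Real.pi), (tp n c t * conj (tp n c t)).re = 2 * Real.pi * A := by
    have hcont : Continuous (fun t => tp n c t * conj (tp n c t)) := by fun_prop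
    have h3 := congrArg Complex.re h2
    rw [Complex.ofReal_re] at h3
    rw [← h3]
    exact Complex.reCLM.intervalIntegral_comp_comm (hcont.intervalIntegrable _ _)
  have h4 : 0 ≤ ∫ t in (0 : ℝ)..(2 * Real.pi), ‖u t - tp n c t‖ ^ 2 :=
    intervalIntegral.integral_nonneg hpi.le (fun t _ => by positivity)
  have h5 : ∫ t in (0 : ℝ)..(2 * Real.pi), ‖u t - tp n c t‖ ^ 2 =
      (∫ t in (0 : ℝ)..(2 * Real.pi), ‖u t‖ ^ 2) -
      2 * (∫ t in (0 : ℝ)..(2 * Real.pi), (u t * conj (tp n c t)).re) +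
      ∫ t in (0 : ℝ)..(2 * Real.pi), (tp n c t * conj (tp n c t)).re := by
    rw [← intervalIntegral.integral_const_mul, ← intervalIntegral.integral_sub,
      ← intervalIntegral.integral_add]
    · exact intervalIntegral.integral_congr (fun t _ => hpt t)
    · apply Continuous.intervalIntegrable
      fun_prop
    · apply Continuous.intervalIntegrable
      fun_prop
    · apply Continuous.intervalIntegrable
      fun_prop
    · apply Continuous.intervalIntegrable
      fun_prop
  rw [hre1, hre2] at h5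
  rw [← div_eq_inv_mul, le_div_iff₀ hpi]
  linarith

theorem thr : S_THR := by
  intro p h hp1 hp2 hh n a
  have hpi : 0 < 2 * Real.pi := by positivity
  set f := tp n a with hf
  have hfc : Continuous f := tp_cont n a
  have hmax : ∀ t, 0 < max ‖f t‖ h := fun t => lt_max_of_lt_right hh
  set g : ℝ → ℂ := fun t => ((1 - h / max ‖f t‖ h : ℝ) : ℂ) * f t with hg
  set u : ℝ → ℂ := fun t => ((h / max ‖f t‖ h : ℝ) : ℂ) * f t with hu
  have hdc : Continuous (fun t => h / max ‖f t‖ h) := by
    apply Continuous.div continuous_const (hfc.norm.max continuous_const)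
    intro t
    exact (hmax t).ne'
  have huc : Continuous u := by
    rw [hu]
    exact (Complex.continuous_ofReal.comp hdc).mul hfc
  have hgc : Continuous g := by
    rw [hg]
    exact (Complex.continuous_ofReal.comp (continuous_const.sub hdc)).mul hfc
  have hfp : ∀ t, f (t + 2 * Real.pi) = f t := fun t => Pool.Agent.P8H78.TU.tp_per n a t
  have hpc : Continuous (fun t => ‖f t‖ ^ p) := hfc.norm.rpow_const (fun t => Or.inr (by linarith))
  refine ⟨g, hgc, ?_, ?_, ?_⟩
  · intro t
    simp only [hg, hfp]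
  · have hb : ∀ t, ‖g t‖ ≤ h ^ (1 - p) * ‖f t‖ ^ p := by
      intro t
      simp only [hg]
      rw [norm_mul, Complex.norm_real, Real.norm_eq_abs]
      rcases le_or_gt ‖f t‖ h with hle | hgt
      · rw [max_eq_right hle, div_self hh.ne', sub_self, abs_zero, zero_mul]
        positivity
      · have hfpos : 0 < ‖f t‖ := lt_trans hh hgt
        rw [max_eq_left hgt.le]
        have h1 : |1 - h / ‖f t‖| ≤ 1 := by
          rw [abs_le]
          have h2 : h / ‖f t‖ ≤ 1 := by rw [div_le_one hfpos]; exact hgt.le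
          have h3 : 0 ≤ h / ‖f t‖ := by positivity
          constructor <;> linarith
        have h4 : ‖f t‖ ^ (1 - p) ≤ h ^ (1 - p) :=
          Real.rpow_le_rpow_of_nonpos hh hgt.le (by linarith)
        have h5 : ‖f t‖ = ‖f t‖ ^ (1 - p) * ‖f t‖ ^ p := by
          rw [← Real.rpow_add hfpos]
          have : 1 - p + p = 1 := by ring
          rw [this, Real.rpow_one]
        calc |1 - h / ‖f t‖| * ‖f t‖ ≤ 1 * ‖f t‖ := mul_le_mul_of_nonneg_right h1 hfpos.le
          _ = ‖f t‖ := one_mul _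
          _ = ‖f t‖ ^ (1 - p) * ‖f t‖ ^ p := h5
          _ ≤ h ^ (1 - p) * ‖f t‖ ^ p := mul_le_mul_of_nonneg_right h4 (by positivity)
    have h1 : ∫ t in (0 : ℝ)..(2 * Real.pi), ‖g t‖ ≤
        ∫ t in (0 : ℝ)..(2 * Real.pi), h ^ (1 - p) * ‖f t‖ ^ p := by
      apply intervalIntegral.integral_mono_on hpi.le
      · exact hgc.norm.intervalIntegrable _ _
      · exact (hpc.const_mul _).intervalIntegrable _ _
      · intro t _
        exact hb t
    rw [intervalIntegral.integral_const_mul] at h1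
    unfold Np
    calc (2 * Real.pi)⁻¹ * ∫ t in (0 : ℝ)..(2 * Real.pi), ‖g t‖
        ≤ (2 * Real.pi)⁻¹ * (h ^ (1 - p) * ∫ t in (0 : ℝ)..(2 * Real.pi), ‖f t‖ ^ p) :=
          mul_le_mul_of_nonneg_left h1 (by positivity)
      _ = _ := by ring
  · have hcu : ∀ j ∈ range (n + 1), a j - ((2 * Real.pi)⁻¹ : ℝ) * ∫ t in (0 : ℝ)..(2 * Real.pi),
        g t * cexp ((-(j * t : ℝ) : ℂ) * I) = cf u j := by
      intro j hj
      have h1 := cf_tp n a j hj
      rw [← h1]
      unfold cf
      rw [← mul_sub, ← intervalIntegral.integral_sub]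
      · congr 1
        apply intervalIntegral.integral_congr
        intro t _
        simp only [hg, hu]
        push_cast
        ring
      · apply Continuous.intervalIntegrable
        exact hfc.mul (by fun_prop)
      · apply Continuous.intervalIntegrable
        exact hgc.mul (by fun_prop)
    rw [Finset.sum_congr rfl (fun j hj => by rw [hcu j hj])]
    refine (bessel n u huc).trans ?_
    have hb : ∀ t, ‖u t‖ ^ 2 ≤ h ^ (2 - p) * ‖f t‖ ^ p := by
      intro t
      simp only [hu]
      rw [norm_mul, Complex.norm_real, Real.norm_eq_abs, abs_of_nonneg (div_nonneg hh.le (hmax t).le)]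
      rcases le_or_gt ‖f t‖ h with hle | hgt
      · rw [max_eq_right hle, div_self hh.ne', one_mul]
        rcases (norm_nonneg (f t)).eq_or_lt with h0 | h0
        · rw [← h0]
          have : (0 : ℝ) ^ 2 = 0 := by norm_num
          rw [this, Real.zero_rpow (by linarith), mul_zero]
        · have h5 : ‖f t‖ ^ 2 = ‖f t‖ ^ (2 - p) * ‖f t‖ ^ p := by
            rw [← Real.rpow_add h0]
            have : 2 - p + p = 2 := by ring
            rw [this, Real.rpow_two]
          rw [h5]
          apply mul_le_mul_of_nonneg_right _ (by positivity)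
          exact Real.rpow_le_rpow h0.le hle (by linarith)
      · have hfpos : 0 < ‖f t‖ := lt_trans hh hgt
        rw [max_eq_left hgt.le, div_mul_cancel₀ _ hfpos.ne']
        have h5 : h ^ 2 = h ^ (2 - p) * h ^ p := by
          rw [← Real.rpow_add hh]
          have : 2 - p + p = 2 := by ring
          rw [this, Real.rpow_two]
        rw [h5]
        apply mul_le_mul_of_nonneg_left _ (by positivity)
        exact Real.rpow_le_rpow hh.le hgt.le (by linarith)
    have h1 : ∫ t in (0 : ℝ)..(2 * Real.pi), ‖u t‖ ^ 2 ≤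
        ∫ t in (0 : ℝ)..(2 * Real.pi), h ^ (2 - p) * ‖f t‖ ^ p := by
      apply intervalIntegral.integral_mono_on hpi.le
      · exact (huc.norm.pow 2).intervalIntegrable _ _
      · exact (hpc.const_mul _).intervalIntegrable _ _
      · intro t _
        exact hb t
    rw [intervalIntegral.integral_const_mul] at h1
    unfold Np
    calc (2 * Real.pi)⁻¹ * ∫ t in (0 : ℝ)..(2 * Real.pi), ‖u t‖ ^ 2
        ≤ (2 * Real.pi)⁻¹ * (h ^ (2 - p) * ∫ t in (0 : ℝ)..(2 * Real.pi), ‖f t‖ ^ p) :=
          mul_le_mul_of_nonneg_left h1 (by positivity)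
      _ = _ := by ring

end Pool.Agent.P8H7.TU
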